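import Mathlib

/-!
# A Hausdorff Markov `k`-Menger space which is not Markov `k`-Rothberger
-/

open Set Cardinal Function Filter Topology

namespace Pool.Agent.Results.MP_41ff45_gt.NotRothberger

/-- An open family such that every compact set lies inside some member. -/
def IsKCover {X : Type} [TopologicalSpace X] (𝒰 : Set (Set X)) : Prop :=
  (∀ U ∈ 𝒰, IsOpen U) ∧ ∀ K : Set X, IsCompact K → ∃ U ∈ 𝒰, K ⊆ U

/-- P2 has a winning Markov strategy in `G_fin(K_X, K_X)`. -/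
def MarkovKMenger (X : Type) [TopologicalSpace X] : Prop :=
  ∃ σ : Set (Set X) → ℕ → Set (Set X),
    (∀ 𝒰 n, IsKCover 𝒰 → σ 𝒰 n ⊆ 𝒰 ∧ (σ 𝒰 n).Finite) ∧
    ∀ 𝒰 : ℕ → Set (Set X), (∀ n, IsKCover (𝒰 n)) → IsKCover (⋃ n, σ (𝒰 n) n)

/-- P2 has a winning Markov strategy in `G_1(K_X, K_X)`. -/
def MarkovKRothberger (X : Type) [TopologicalSpace X] : Prop :=
  ∃ σ : Set (Set X) → ℕ → Set X,
    (∀ 𝒰 n, IsKCover 𝒰 → σ 𝒰 n ∈ 𝒰) ∧
    ∀ 𝒰 : ℕ → Set (Set X), (∀ n, IsKCover (𝒰 n)) → IsKCover (range fun n => σ (𝒰 n) n)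

/-! ### A transfinite choice -/

/-- Injective transversals of families of large sets. -/
theorem exists_transversal {K J : Type} (hJ : #J ≤ #K) (S : J → Set K)
    (hS : ∀ j, #K ≤ #(S j)) : ∃ x : J → K, Injective x ∧ ∀ j, x j ∈ S j := by
  classical
  obtain ⟨r, wo, hr⟩ := exists_ord_eq J
  have hwf : WellFounded r := wo.wf
  rcases isEmpty_or_nonempty J with hJe | ⟨⟨j0⟩⟩
  · exact ⟨fun j => (hJe.false j).elim, fun j => (hJe.false j).elim, fun j => (hJe.false j).elim⟩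
  have hKne : Nonempty K := by
    rw [← mk_ne_zero_iff]
    intro h
    rw [h] at hJ
    exact (mk_ne_zero_iff.2 ⟨j0⟩) (le_antisymm hJ zero_le)
  let pick : J → Set K → K := fun j Y =>
    if h : ∃ s, s ∈ S j ∧ s ∉ Y then h.choose else hKne.some
  obtain ⟨x, hx⟩ : ∃ x : J → K, ∀ j, x j = pick j (x '' {i | r i j}) := by
    refine ⟨hwf.fix fun j ih => pick j {v | ∃ i, ∃ h : r i j, ih i h = v}, fun j => ?_⟩
    rw [hwf.fix_eq]
    congr 1
    ext v
    constructor
    · rintro ⟨j, h, rfl⟩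
      exact ⟨j, h, rfl⟩
    · rintro ⟨j, h, rfl⟩
      exact ⟨j, h, rfl⟩
  have hcard : ∀ j, #{i | r i j} < #K := by
    intro j
    have h1 := card_typein_lt (r := r) j hr
    rw [Ordinal.card_typein] at h1
    exact h1.trans_le hJ
  have hgood : ∀ j, x j ∈ S j ∧ x j ∉ x '' {i | r i j} := by
    intro j
    have h1 : ∃ s, s ∈ S j ∧ s ∉ x '' {i | r i j} := by
      by_contra hcon
      push Not at hcon
      have h2 : S j ⊆ x '' {i | r i j} := fun s hs => hcon s hs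
      exact absurd ((hS j).trans ((mk_le_mk_of_subset h2).trans mk_image_le)) (not_le.2 (hcard j))
    rw [hx j]
    have h3 : pick j (x '' {i | r i j}) = h1.choose := by
      simp only [pick]
      rw [dif_pos h1]
    rw [h3]
    exact h1.choose_spec
  refine ⟨x, fun i j hij => ?_, fun j => (hgood j).1⟩
  by_contra hne
  rcases trichotomous_of r i j with h | h | h
  · exact (hgood j).2 ⟨i, h, hij⟩
  · exact hne h
  · exact (hgood i).2 ⟨j, h, hij.symm⟩

theorem exists_colouring {K I : Type} (hK : ℵ₀ ≤ #K) (hI : #I ≤ #K) (S : I → Set K)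
    (hS : ∀ i, #K ≤ #(S i)) : ∃ c : K → ℕ, ∀ i n, ∃ x ∈ S i, c x = n := by
  classical
  obtain ⟨x, hx, hxS⟩ := exists_transversal (J := I × ℕ) (K := K) (by
    rw [← mul_def, mk_nat]
    exact (mul_le_max _ _).trans (max_le (max_le hI hK) hK)) (fun p => S p.1) fun p => hS p.1
  refine ⟨fun y => if h : ∃ p, x p = y then h.choose.2 else 0, fun i n => ?_⟩
  refine ⟨x (i, n), hxS (i, n), ?_⟩
  have h : ∃ p, x p = x (i, n) := ⟨_, rfl⟩
  simp only [dif_pos h]
  rw [hx h.choose_spec]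

/-! ### Ultrafilters on `ℕ` -/

theorem exists_product (u : ℕ → Ultrafilter ℕ) :
    ∃ w : Ultrafilter (ℕ →₀ ℕ), ∀ n, w.map (fun f => f n) = u n := by
  have hne : NeBot (comap (fun (f : ℕ →₀ ℕ) (n : ℕ) => f n) (Filter.pi fun n => (u n : Filter ℕ))) := by
    rw [comap_neBot_iff]
    intro t ht
    obtain ⟨I, hI, s, hs, hst⟩ := mem_pi.1 ht
    have h1 : ∀ i, (s i).Nonempty := fun i => (u i).nonempty_of_mem (hs i)
    choose g hg using h1
    classical
    refine ⟨Finsupp.onFinset hI.toFinset (fun i => if i ∈ I then g i else 0) ?_, hst ?_⟩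
    · intro a ha
      by_contra h
      rw [Finite.mem_toFinset] at h
      simp [h] at ha
    · intro i hi
      simp only [Finsupp.onFinset_apply, if_pos hi]
      exact hg i
  refine ⟨Ultrafilter.of (comap (fun (f : ℕ →₀ ℕ) (n : ℕ) => f n)
    (Filter.pi fun n => (u n : Filter ℕ))), fun n => ?_⟩
  refine Ultrafilter.eq_of_le ?_
  have h2 : Tendsto (fun f : ℕ →₀ ℕ => f n) (comap (fun (f : ℕ →₀ ℕ) (n : ℕ) => f n)
      (Filter.pi fun n => (u n : Filter ℕ))) (u n) := by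
    exact (tendsto_eval_pi _ n).comp tendsto_comap
  exact h2.mono_left (Ultrafilter.of_le _)

theorem mk_seq_le : #(ℕ → Ultrafilter ℕ) ≤ #(Ultrafilter ℕ) := by
  choose w hw using exists_product
  have h1 : #(ℕ → Ultrafilter ℕ) ≤ #(Ultrafilter (ℕ →₀ ℕ)) := by
    refine mk_le_of_injective (f := w) fun a b hab => ?_
    funext n
    rw [← hw a n, ← hw b n, hab]
  have e : (ℕ →₀ ℕ) ≃ ℕ := by
    have : #(ℕ →₀ ℕ) = #ℕ := by simp
    exact (Cardinal.eq.1 this).some
  refine h1.trans (mk_le_of_injective (f := fun v => v.map e) fun a b hab => ?_)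
  have h2 : (a.map e).map e.symm = (b.map e).map e.symm := by
    simp only at hab
    rw [hab]
  simpa [Ultrafilter.map_map] using h2

theorem infinite_ultrafilter : Infinite (Ultrafilter ℕ) :=
  Infinite.of_injective (fun n : ℕ => (pure n : Ultrafilter ℕ)) Ultrafilter.pure_injective

theorem mk_closure_ge {A : Set (Ultrafilter ℕ)} (hA : A.Infinite) :
    #(Ultrafilter ℕ) ≤ #(closure A) := by
  have : Infinite A := hA.to_subtype
  obtain ⟨f, hf⟩ := exists_topology_isEmbedding_nat A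
  let d : ℕ → Ultrafilter ℕ := fun n => f n
  have hd : IsEmbedding d := IsEmbedding.subtypeVal.comp hf
  -- separating sets
  have h1 : ∀ n, ∃ B : Set ℕ, B ∈ d n ∧ ∀ m, m ≠ n → B ∉ d m := by
    intro n
    have h2 : IsOpen ({n} : Set ℕ) := isOpen_discrete _
    obtain ⟨V, hV, hVn⟩ := hd.isOpen_iff.1 h2
    have h3 : d n ∈ V := by
      have : n ∈ d ⁻¹' V := by rw [hVn]; rfl
      exact this
    obtain ⟨W, ⟨B, rfl⟩, hB1, hB2⟩ := (ultrafilterBasis_is_basis.mem_nhds_iff).1 (hV.mem_nhds h3)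
    refine ⟨B, hB1, fun m hm hB => hm ?_⟩
    have h4 : m ∈ d ⁻¹' V := hB2 hB
    rw [hVn] at h4
    exact h4
  choose B hB hB' using h1
  let D : ℕ → Set ℕ := fun n => B n \ ⋃ m ∈ Finset.range n, B m
  have hD : ∀ n, D n ∈ d n := by
    intro n
    have h2 : (⋃ m ∈ Finset.range n, B m)ᶜ ∈ d n := by
      rw [compl_iUnion₂]
      refine (Filter.biInter_finset_mem (f := (d n : Filter ℕ)) _).2 fun m hm => ?_
      refine Ultrafilter.compl_mem_iff_notMem.2 (hB' m n ?_)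
      rw [Finset.mem_range] at hm
      omega
    exact inter_mem (hB n) h2
  have hDd : ∀ m n, m < n → Disjoint (D m) (D n) := by
    intro m n hmn
    rw [Set.disjoint_left]
    rintro x ⟨hx, _⟩ ⟨_, hx'⟩
    apply hx'
    simp only [mem_iUnion, Finset.mem_range]
    exact ⟨m, hmn, hx⟩
  have hDd' : ∀ m n, m ≠ n → Disjoint (D m) (D n) := by
    intro m n hmn
    rcases lt_or_gt_of_ne hmn with h | h
    · exact hDd m n h
    · exact (hDd n m h).symm
  have hmem : ∀ (u : Ultrafilter ℕ) (s : Set ℕ), s ∈ u.bind d ↔ {n | s ∈ d n} ∈ u := by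
    intro u s
    exact Filter.mem_bind'
  have hC : ∀ (C : Set ℕ), {n | (⋃ m ∈ C, D m) ∈ d n} = C := by
    intro C
    ext n
    constructor
    · intro h
      by_contra hn
      have h2 : (⋃ m ∈ C, D m) ∩ D n ∈ d n := inter_mem h (hD n)
      obtain ⟨x, hx1, hx2⟩ := (d n).nonempty_of_mem h2
      simp only [mem_iUnion] at hx1
      obtain ⟨m, hm, hxm⟩ := hx1
      have hmn : m ≠ n := fun h => hn (h ▸ hm)
      exact (Set.disjoint_left.1 (hDd' m n hmn)) hxm hx2
    · intro h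
      exact mem_of_superset (hD n) (subset_biUnion_of_mem (u := D) h)
  refine mk_le_of_injective (f := fun u => (⟨u.bind d, ?_⟩ : closure A)) fun u v huv => ?_
  · rw [ultrafilterBasis_is_basis.mem_closure_iff]
    rintro o ⟨s, rfl⟩ hs
    have h2 := (hmem u s).1 hs
    obtain ⟨n, hn⟩ := u.nonempty_of_mem h2
    exact ⟨d n, hn, (f n).2⟩
  · have h2 : u.bind d = v.bind d := congrArg Subtype.val huv
    ext C
    rw [← hC C, ← hmem, ← hmem, h2]

theorem exists_c : ∃ c : Ultrafilter ℕ → ℕ, ∀ A : Set (Ultrafilter ℕ), IsClosed A → A.Infinite →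
    ∀ n, ∃ x ∈ A, c x = n := by
  have := infinite_ultrafilter
  obtain ⟨c, hc⟩ := exists_colouring (K := Ultrafilter ℕ) (I := {d : ℕ → Ultrafilter ℕ // Injective d})
    (aleph0_le_mk _) ((mk_subtype_le _).trans mk_seq_le) (fun d => closure (range d.1))
    (fun d => mk_closure_ge (infinite_range_of_injective d.2))
  refine ⟨c, fun A hA hAi n => ?_⟩
  let d : ℕ → Ultrafilter ℕ := fun n => (hAi.natEmbedding A n : Ultrafilter ℕ)
  have hd : Injective d := fun a b h => (hAi.natEmbedding A).injective (Subtype.ext h)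
  obtain ⟨x, hx, hxn⟩ := hc ⟨d, hd⟩ n
  refine ⟨x, ?_, hxn⟩
  have h1 : closure (range d) ⊆ A := closure_minimal (by
    rintro _ ⟨k, rfl⟩
    exact (hAi.natEmbedding A k).2) hA
  exact h1 hx

theorem not_countable_ultrafilter : ¬ Countable (Ultrafilter ℕ) := by
  have := infinite_ultrafilter
  intro h
  have h1 : #(ℕ → Ultrafilter ℕ) ≤ ℵ₀ := mk_seq_le.trans (mk_le_aleph0_iff.2 h)
  have h2 : #(ℕ → ℕ) ≤ #(ℕ → Ultrafilter ℕ) := by
    refine mk_le_of_injective (f := fun g n => (pure (g n) : Ultrafilter ℕ)) fun a b hab => ?_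
    funext n
    exact Ultrafilter.pure_injective (congrFun hab n)
  have h3 : #(ℕ → ℕ) = 𝔠 := by simp
  rw [h3] at h2
  exact absurd (h2.trans h1) (not_le.2 aleph0_lt_continuum)

/-! ### The topology -/

section Top

variable (c : Ultrafilter ℕ → ℕ)

/-- The sets which agree with an open set on each `{c ≤ n}`. -/
@[reducible] def tau : TopologicalSpace (Ultrafilter ℕ) where
  IsOpen U := ∀ n, ∃ V : Set (Ultrafilter ℕ), IsOpen V ∧ ∀ x, c x ≤ n → (x ∈ U ↔ x ∈ V)
  isOpen_univ := fun n => ⟨univ, isOpen_univ, fun x _ => by simp⟩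
  isOpen_inter := by
    intro s t hs ht n
    obtain ⟨V, hV, hV'⟩ := hs n
    obtain ⟨W, hW, hW'⟩ := ht n
    exact ⟨V ∩ W, hV.inter hW, fun x hx => by
      rw [mem_inter_iff, mem_inter_iff, hV' x hx, hW' x hx]⟩
  isOpen_sUnion := by
    intro S hS n
    have h1 : ∀ s : S, ∃ V : Set (Ultrafilter ℕ), IsOpen V ∧ ∀ x, c x ≤ n → (x ∈ s.1 ↔ x ∈ V) :=
      fun s => hS s.1 s.2 n
    choose V hV hV' using h1
    refine ⟨⋃ s, V s, isOpen_iUnion hV, fun x hx => ?_⟩
    rw [mem_sUnion, mem_iUnion]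
    constructor
    · rintro ⟨s, hs, hxs⟩
      exact ⟨⟨s, hs⟩, (hV' ⟨s, hs⟩ x hx).1 hxs⟩
    · rintro ⟨s, hs⟩
      exact ⟨s.1, s.2, (hV' s x hx).2 hs⟩

end Top

theorem tau_of_open (c : Ultrafilter ℕ → ℕ) {V : Set (Ultrafilter ℕ)} (hV : IsOpen V) :
    IsOpen[tau c] V := fun _ => ⟨V, hV, fun _ _ => Iff.rfl⟩

theorem tau_compact (c : Ultrafilter ℕ → ℕ)
    (hc : ∀ A : Set (Ultrafilter ℕ), IsClosed A → A.Infinite → ∀ n, ∃ x ∈ A, c x = n)
    (A : Set (Ultrafilter ℕ)) (hA : @IsCompact _ (tau c) A) : A.Finite := by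
  by_contra hinf
  have hcont : @Continuous _ _ (tau c) _ (id : Ultrafilter ℕ → Ultrafilter ℕ) :=
    @Continuous.mk _ _ (tau c) _ _ fun V hV => tau_of_open c hV
  have hAK : IsCompact A := by
    have h1 := @IsCompact.image _ _ (tau c) _ A id hA hcont
    rwa [image_id] at h1
  by_cases hb : ∃ n, ∀ x ∈ A, c x ≤ n
  · obtain ⟨n, hn⟩ := hb
    obtain ⟨x, hx, hxn⟩ := hc A hAK.isClosed hinf (n + 1)
    have := hn x hx
    omega
  · push Not at hb
    choose x hx hxc using hb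
    have hDn : ∀ n, {y ∈ range x | c y ≤ n}.Finite := by
      intro n
      refine ((Set.finite_lt_nat n).image x).subset ?_
      rintro _ ⟨⟨k, rfl⟩, hk⟩
      exact ⟨k, lt_of_lt_of_le (hxc k) hk, rfl⟩
    have hD : (range x).Infinite := by
      intro hfin
      obtain ⟨m, hm⟩ := (hfin.image c).bddAbove
      have h1 := hm ⟨x m, ⟨m, rfl⟩, rfl⟩
      have h2 := hxc m
      omega
    have hopen : ∀ E ⊆ range x, IsOpen[tau c] Eᶜ := by
      intro E hE n
      refine ⟨{y ∈ E | c y ≤ n}ᶜ, ?_, fun y hy => ?_⟩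
      · rw [isOpen_compl_iff]
        refine Set.Finite.isClosed ((hDn n).subset ?_)
        rintro y ⟨hy, hy'⟩
        exact ⟨hE hy, hy'⟩
      · simp only [mem_compl_iff, mem_ofPred_eq, not_and]
        exact ⟨fun h h' => absurd h' h, fun h h' => h h' hy⟩
    obtain ⟨a, -, ha⟩ := @Set.Infinite.exists_accPt_of_subset_isCompact _ (tau c) _ _ hD hA (by
      rintro _ ⟨k, rfl⟩; exact hx k)
    have h1 : (range x \ {a})ᶜ ∈ @nhds _ (tau c) a :=
      @IsOpen.mem_nhds _ (tau c) a _ (hopen (range x \ {a}) sdiff_subset)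
        (fun h : a ∈ range x \ {a} => h.2 rfl)
    rw [@accPt_iff_nhds _ (tau c)] at ha
    obtain ⟨y, ⟨hy1, hy2⟩, hy3⟩ := ha _ h1
    exact hy1 ⟨hy2, hy3⟩

theorem tau_menger (c : Ultrafilter ℕ → ℕ) (𝒰 : Set (Set (Ultrafilter ℕ)))
    (h𝒰 : @IsKCover _ (tau c) 𝒰) (n : ℕ) :
    ∃ F ⊆ 𝒰, F.Finite ∧ ∀ f : Fin n → Ultrafilter ℕ, (∀ i, c (f i) ≤ n) →
      ∃ U ∈ F, ∀ i, f i ∈ U := by
  classical
  by_contra hcon
  push Not at hcon
  have h1 : ∀ F : Finset 𝒰, ∃ f : Fin n → Ultrafilter ℕ, (∀ i, c (f i) ≤ n) ∧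
      ∀ U : 𝒰, U ∈ F → ∃ i, f i ∉ U.1 := by
    intro F
    obtain ⟨f, hf, hf'⟩ := hcon (Subtype.val '' (F : Set 𝒰)) (by rintro _ ⟨U, _, rfl⟩; exact U.2)
      (F.finite_toSet.image _)
    exact ⟨f, hf, fun U hU => hf' U.1 ⟨U, hU, rfl⟩⟩
  choose f hf hf' using h1
  let w : Ultrafilter (Finset 𝒰) := Ultrafilter.of atTop
  have h2 : ∀ i, ∃ x : Ultrafilter ℕ, (w.map (fun F => f F i) : Filter (Ultrafilter ℕ)) ≤ 𝓝 x := by
    intro i
    obtain ⟨x, -, hx⟩ := isCompact_univ.ultrafilter_le_nhds (w.map (fun F => f F i)) (by simp)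
    exact ⟨x, hx⟩
  choose x hx using h2
  obtain ⟨U, hU, hxU⟩ := h𝒰.2 (range x) (@Set.Finite.isCompact _ (tau c) _ (finite_range x))
  have hUo := h𝒰.1 U hU
  obtain ⟨m, hm⟩ := ((finite_range x).image c).bddAbove
  obtain ⟨V, hV, hV'⟩ := hUo (max m n)
  have h3 : ∀ᶠ F in w, ∀ i, f F i ∈ V := by
    rw [eventually_all]
    intro i
    have h4 : x i ∈ V := (hV' (x i) (le_max_of_le_left (hm ⟨x i, ⟨i, rfl⟩, rfl⟩))).1 (hxU ⟨i, rfl⟩)
    exact hx i (hV.mem_nhds h4)
  have h4 : ∀ᶠ F in (w : Filter (Finset 𝒰)), ({⟨U, hU⟩} : Finset 𝒰) ≤ F :=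
    (Ultrafilter.of_le atTop) (mem_atTop ({⟨U, hU⟩} : Finset 𝒰))
  obtain ⟨F, hF1, hF2⟩ := (h3.and h4).exists
  obtain ⟨i, hi⟩ := hf' F ⟨U, hU⟩ (hF2 (Finset.mem_singleton_self _))
  exact hi ((hV' _ (le_max_of_le_right (hf F i))).2 (hF1 i))

/-- There is a Hausdorff space which is Markov `k`-Menger but not Markov `k`-Rothberger. -/
theorem result : ∃ (X : Type) (_ : TopologicalSpace X),
    T2Space X ∧ MarkovKMenger X ∧ ¬ MarkovKRothberger X := by
  classical
  obtain ⟨c, hc⟩ := exists_c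
  have hcont : @Continuous _ _ (tau c) _ (id : Ultrafilter ℕ → Ultrafilter ℕ) :=
    @Continuous.mk _ _ (tau c) _ _ fun V hV => tau_of_open c hV
  have hfin := tau_compact c hc
  refine ⟨Ultrafilter ℕ, tau c, ?_, ?_, ?_⟩
  · exact @T2Space.of_injective_continuous _ _ (tau c) _ _ id injective_id hcont
  · refine ⟨fun 𝒰 n => if h : @IsKCover _ (tau c) 𝒰 then (tau_menger c 𝒰 h n).choose else ∅,
      fun 𝒰 n h => ?_, fun 𝒰 h => ⟨?_, fun K hK => ?_⟩⟩
    · simp only [dif_pos h]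
      exact ⟨(tau_menger c 𝒰 h n).choose_spec.1, (tau_menger c 𝒰 h n).choose_spec.2.1⟩
    · intro U hU
      rw [mem_iUnion] at hU
      obtain ⟨n, hn⟩ := hU
      simp only [dif_pos (h n)] at hn
      exact (h n).1 U ((tau_menger c (𝒰 n) (h n) n).choose_spec.1 hn)
    · have hKf : K.Finite := hfin K hK
      have key : ∃ n, ∃ f : Fin n → Ultrafilter ℕ, (∀ i, c (f i) ≤ n) ∧ K ⊆ range f := by
        rcases K.eq_empty_or_nonempty with rfl | hne
        · exact ⟨0, Fin.elim0, fun i => i.elim0, empty_subset _⟩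
        · obtain ⟨m, hm⟩ := (hKf.image c).bddAbove
          have := hKf.fintype
          have := hne.to_subtype
          obtain ⟨e⟩ := Function.Embedding.nonempty_of_card_le (α := K)
            (β := Fin (max m (Fintype.card K))) (by simp)
          refine ⟨max m (Fintype.card K), fun i => (invFun e i : K), fun i => ?_, fun y hy => ?_⟩
          · exact le_max_of_le_left (hm ⟨_, (invFun e i).2, rfl⟩)
          · obtain ⟨i, hi⟩ := invFun_surjective e.injective ⟨y, hy⟩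
            exact ⟨i, by simp only [hi]⟩
      obtain ⟨n, f, hf, hKf⟩ := key
      obtain ⟨U, hU, hfU⟩ := (tau_menger c (𝒰 n) (h n) n).choose_spec.2.2 f hf
      refine ⟨U, mem_iUnion.2 ⟨n, ?_⟩, ?_⟩
      · simp only [dif_pos (h n)]
        exact hU
      · intro y hy
        obtain ⟨i, rfl⟩ := hKf hy
        exact hfU i
  · rintro ⟨σ, hσ, hwin⟩
    let T : ℕ → Set (Ultrafilter ℕ) := fun n => {x | ∀ 𝒰, @IsKCover _ (tau c) 𝒰 → x ∈ σ 𝒰 n}
    have hT : ∀ n, (T n).Finite := by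
      intro n
      by_contra hinf
      have hk : @IsKCover _ (tau c) ((fun r => ({r} : Set (Ultrafilter ℕ))ᶜ) '' T n) := by
        refine ⟨?_, fun K hK => ?_⟩
        · rintro _ ⟨r, _, rfl⟩
          exact tau_of_open c isOpen_compl_singleton
        · obtain ⟨r, hr, hrK⟩ := Set.Infinite.exists_notMem_finite hinf (hfin K hK)
          exact ⟨_, ⟨r, hr, rfl⟩, fun y hy hyr => hrK (by rwa [mem_singleton_iff.1 hyr] at hy)⟩
      obtain ⟨r, hr, hr'⟩ := hσ _ n hk
      have h1 := hr _ hk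
      rw [← hr'] at h1
      exact h1 rfl
    have hcov : ∀ x, ∃ n, x ∈ T n := by
      intro x
      by_contra hx
      push Not at hx
      have h1 : ∀ n, ∃ 𝒰, @IsKCover _ (tau c) 𝒰 ∧ x ∉ σ 𝒰 n := by
        intro n
        have := hx n
        simp only [T, mem_ofPred_eq, not_forall] at this
        obtain ⟨𝒰, h, h'⟩ := this
        exact ⟨𝒰, h, h'⟩
      choose 𝒰 h𝒰 hx𝒰 using h1
      obtain ⟨U, ⟨n, rfl⟩, hU⟩ := (hwin 𝒰 h𝒰).2 {x} (@isCompact_singleton _ (tau c) x)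
      exact hx𝒰 n (hU rfl)
    apply not_countable_ultrafilter
    have h1 : (univ : Set (Ultrafilter ℕ)).Countable := by
      refine (countable_iUnion fun n => (hT n).countable).mono fun x _ => ?_
      exact mem_iUnion.2 (hcov x)
    exact countable_univ_iff.1 h1

end Pool.Agent.Results.MP_41ff45_gt.NotRothberger
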